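import Mathlib
import Pool.Agent.H251R5.PQ.Fin
import Pool.Agent.H251R5.PQ.Sel

/-!
# Selective sets which are hard for `NP` under reductions with boundedly many rounds of queries

Polynomial time is Mathlib's `Turing.TM2ComputableInPolyTime`, for functions on bit strings.

* `PSelective A`: `A` is p-selective.
* `Rounds A r F`: the function `F` is computable in polynomial time with oracle `A` in `r` rounds
  of parallel queries (`r = 1`: truth-table reductions).

The theorem: if for every language in `NP` there is a number `r` such that the language is
reducible to the p-selective set `A` by a polynomial-time Turing reduction with `r` rounds of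
parallel queries, then `P = NP`.  In particular no p-selective set is truth-table hard for `NP`
unless `P = NP`.

Proof.  The queries to a p-selective set are linearly ordered by the selector up to equivalence
(number of preferred strings), so the answers to `k` parallel queries are among `k + 1` vectors, and
the answers to polynomially many queries to an `NP` set are among polynomially many vectors which
can be listed in polynomial time.  This implies `P = NP` by the main theorem of
`Pool.Agent.H251R5.PQ` (see `MP_8f56c4_lc.ParallelQueriesCollapse`).
-/

set_option autoImplicit false

namespace Pool.Agent.Results.MP_5d94c0_lc.SelectiveBoundedRounds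

open Pool.Agent.NPC Pool.Agent.H251R5.PQ

/-- If a p-selective set is hard for `NP` under polynomial-time Turing reductions with boundedly
many rounds of parallel queries then `P = NP`. -/
theorem result (A : Set (List Bool)) (hA : PSelective A)
    (hard : ∀ L : Set (List Bool), InNP L → ∃ (r : ℕ) (F : List Bool → List Bool),
      Rounds A r F ∧ ∀ x, x ∈ L ↔ F x = [true]) :
    ∀ L : Set (List Bool), InNP L → InP L := by
  refine collapse_of_enum fun L hL => ?_
  obtain ⟨r, F, hF, hL'⟩ := hard L hL
  exact enumFor_of_sel hA hF hL'

end Pool.Agent.Results.MP_5d94c0_lc.SelectiveBoundedRounds
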